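import Pool.Agent.Lib.MP_3eb21e_gt.It.Cd

/-!
Chains, cells and acyclic box carriers for a functor built from products and finite subsets.
-/

noncomputable section

namespace Pool.Agent.Lib.MP_3eb21e_gt.It

open Finset
open Pool.Agent.Lib.MP_3eb21e_gt.Ch (F add_self)
open Pool.Agent.Lib.MP_3eb21e_gt.Pr (fc ap pr fc_fc fc_pr_le fc_pr_self fc_pr_succ fc_pr_lt fc_ap
  ap_zero Pt Sq Simp cst cst_simp fc_cst Rs Rb bt bt_le bt_mid bt_card)
open scoped Classical

section chains

variable {X : Type}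

abbrev En (X : Type) := Module.End F (X →₀ F)

def e (A : X) : X →₀ F := Finsupp.single A 1

def lin (φ : X → X →₀ F) : En X := Finsupp.linearCombination F φ

lemma add_selfE (x : En X) : x + x = 0 := add_self (M := En X) x

lemma aux {A : Type} [AddCommGroup A] (h : ∀ x : A, x + x = 0) {a b c d e f o : A}
    (ih : a + b = o + c) : a + (d + c) + (e + f) + (b + d + e) = o + f := by
  linear_combination (norm := abel1) ih + h c + h d + h e

@[simp] lemma lin_e (φ : X → X →₀ F) (c : X) : lin φ (e c) = φ c := by simp [lin, e]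

lemma ext_e {M : Type} [AddCommMonoid M] [Module F M] {α β : (X →₀ F) →ₗ[F] M}
    (h : ∀ c, α (e c) = β (e c)) : α = β :=
  Finsupp.lhom_ext' fun c => LinearMap.ext_ring (h c)

def Sp (K : Set X) : Submodule F (X →₀ F) := Submodule.span F (e '' K)

lemma e_mem {K : Set X} {c : X} (h : c ∈ K) : e c ∈ Sp K := Submodule.subset_span ⟨c, h, rfl⟩

lemma Sp_mono {K K' : Set X} (h : K ⊆ K') : Sp K ≤ Sp K' := Submodule.span_mono (Set.image_mono h)

lemma Sp_map {M : Type} [AddCommMonoid M] [Module F M] {K : Set X} (α : (X →₀ F) →ₗ[F] M)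
    (P : Submodule F M) (h : ∀ c ∈ K, α (e c) ∈ P) {x : X →₀ F} (hx : x ∈ Sp K) : α x ∈ P := by
  have : Sp K ≤ P.comap α := Submodule.span_le.2 (by rintro _ ⟨c, hc, rfl⟩; exact h c hc)
  exact this hx

lemma Sp_eq {M : Type} [AddCommMonoid M] [Module F M] {K : Set X} (α β : (X →₀ F) →ₗ[F] M)
    (h : ∀ c ∈ K, α (e c) = β (e c)) {x : X →₀ F} (hx : x ∈ Sp K) : α x = β x :=
  LinearMap.eqOn_span (by rintro _ ⟨c, hc, rfl⟩; exact h c hc) hx

lemma mem_Sp {K : Set X} {x : X →₀ F} : x ∈ Sp K ↔ ∀ c, x c ≠ 0 → c ∈ K := by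
  have : Sp K = Finsupp.supported F F K := (Finsupp.supported_eq_span_single F K).symm
  rw [this, Finsupp.mem_supported']
  exact forall_congr' fun c => not_imp_comm

lemma expand {Kf : Finset X} {x : X →₀ F} (hx : x ∈ Sp (Kf : Set X)) {M : Type}
    [AddCommMonoid M] [Module F M] (α : (X →₀ F) →ₗ[F] M) : α x = ∑ c ∈ Kf, x c • α (e c) := by
  have := Sp_eq α (∑ c ∈ Kf, (Finsupp.lapply c : (X →₀ F) →ₗ[F] F).smulRight (α (e c)))
    (fun c hc => by
      rw [LinearMap.sum_apply, sum_eq_single_of_mem c hc]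
      · simp [e]
      · intro b _ hb
        simp [e, hb]) hx
  simpa [LinearMap.sum_apply] using this

lemma tr_comm (K K' : Finset X) (α β : En X) (hα : ∀ c ∈ K', α (e c) ∈ Sp (K : Set X))
    (hβ : ∀ c ∈ K, β (e c) ∈ Sp (K' : Set X)) :
    ∑ c ∈ K, α (β (e c)) c = ∑ c ∈ K', β (α (e c)) c := by
  rw [sum_congr rfl fun c hc => congrArg (fun x : X →₀ F => x c) (expand (hβ c hc) α),
    sum_congr rfl fun c hc => congrArg (fun x : X →₀ F => x c) (expand (hα c hc) β)]
  simp only [Finsupp.finsetSum_apply, Finsupp.smul_apply, smul_eq_mul]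
  rw [sum_comm]
  simp only [mul_comm]

variable (c : Cd)

def Im (f : X → X) : En (c.obj X) := Finsupp.lmapDomain F F (c.map f)

@[simp] lemma Im_e (f : X → X) (A : c.obj X) : Im c f (e A) = e (c.map f A) := by simp [Im, e]

lemma Im_mul (f g : X → X) : Im c f * Im c g = Im c (f ∘ g) :=
  ext_e fun A => by simp [Cd.map_map]

lemma Im_id : Im c (id : X → X) = 1 := ext_e fun A => by simp [Cd.map_id]

variable {P : Type}

def D (j : ℕ) : En (c.obj (ℕ → P)) := Im c (fc j)
def bd (L : ℕ) : En (c.obj (ℕ → P)) := ∑ j ∈ range L, D c j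
def hh (p : P → P) (L : ℕ) : En (c.obj (ℕ → P)) := ∑ i ∈ range L, Im c (pr i p)

lemma bd_succ (L : ℕ) : (bd c (L + 1) : En (c.obj (ℕ → P))) = bd c L + D c L := sum_range_succ _ _
lemma hh_succ (p : P → P) (L : ℕ) : hh c p (L + 1) = hh c p L + Im c (pr L p) := sum_range_succ _ _
lemma bd_zero : (bd c 0 : En (c.obj (ℕ → P))) = 0 := rfl

lemma bd_bd (L : ℕ) : (bd c L * bd c (L + 1) : En (c.obj (ℕ → P))) = 0 := by
  induction L with
  | zero => simp [bd_zero]
  | succ L ih =>
    have h1 : (bd c L * D c (L + 1) : En (c.obj (ℕ → P))) = D c L * bd c L := by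
      unfold bd
      rw [sum_mul, mul_sum]
      refine sum_congr rfl fun i hi => ?_
      simp only [D, Im_mul, fc_fc (mem_range.1 hi).le]
    have h2 : (D c L * D c (L + 1) : En (c.obj (ℕ → P))) = D c L * D c L := by
      simp only [D, Im_mul, fc_fc le_rfl]
    rw [bd_succ c (L + 1), mul_add, bd_succ c L, add_mul, add_mul, ← bd_succ c L, ih, h1, h2,
      bd_succ c L, mul_add, zero_add]
    exact add_selfE _

lemma bd_ap (p : P → P) (L : ℕ) : bd c L * Im c (ap L p) = Im c (ap (L - 1) p) * bd c L := by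
  cases L with
  | zero => simp [bd_zero]
  | succ L =>
    unfold bd
    rw [sum_mul, mul_sum]
    refine sum_congr rfl fun i hi => ?_
    simp only [D, Im_mul, fc_ap (Nat.lt_succ_iff.1 (mem_range.1 hi)), Nat.add_sub_cancel]

lemma prism (p : P → P) (L : ℕ) :
    bd c (L + 1) * hh c p L + hh c p (L - 1) * bd c L = 1 + Im c (ap L p) := by
  cases L with
  | zero =>
    rw [ap_zero, Im_id, add_selfE]
    simp [hh, bd_zero]
  | succ L =>
    rw [Nat.add_sub_cancel]
    induction L with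
    | zero =>
      simp only [bd, hh, zero_add, sum_range_succ, sum_range_zero, add_mul, zero_mul, add_zero, D,
        Im_mul]
      rw [fc_pr_self, ap_zero, Im_id, show (1 : ℕ) = 0 + 1 from rfl, fc_pr_succ]
    | succ L ih =>
      have a1 : bd c (L + 1) * Im c (pr (L + 1) p) = Im c (pr L p) * bd c (L + 1) := by
        unfold bd
        rw [sum_mul, mul_sum]
        refine sum_congr rfl fun i hi => ?_
        simp only [D, Im_mul, fc_pr_le (Nat.lt_succ_iff.1 (mem_range.1 hi))]
      have a2 : D c (L + 1) * Im c (pr (L + 1) p) = Im c (ap (L + 1) p) := by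
        simp only [D, Im_mul, fc_pr_self]
      have a3 : D c (L + 1 + 1) * hh c p (L + 1) = hh c p (L + 1) * D c (L + 1) := by
        unfold hh
        rw [sum_mul, mul_sum]
        refine sum_congr rfl fun i hi => ?_
        simp only [D, Im_mul, fc_pr_lt (mem_range.1 hi)]
      have a4 : D c (L + 1 + 1) * Im c (pr (L + 1) p) = Im c (ap (L + 1 + 1) p) := by
        simp only [D, Im_mul, fc_pr_succ]
      have a5 : bd c (L + 1 + 1) * Im c (pr (L + 1) p) =
          Im c (pr L p) * bd c (L + 1) + Im c (ap (L + 1) p) := by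
        rw [bd_succ c (L + 1), add_mul, a1, a2]
      have a6 : hh c p (L + 1) * bd c (L + 1 + 1) = hh c p L * bd c (L + 1) +
          Im c (pr L p) * bd c (L + 1) + hh c p (L + 1) * D c (L + 1) := by
        rw [bd_succ c (L + 1), mul_add, ← add_mul, ← hh_succ]
      rw [bd_succ c (L + 1 + 1), hh_succ c p (L + 1), add_mul, mul_add, mul_add, a3, a4, a5, a6]
      exact aux (A := En (c.obj (ℕ → P))) add_selfE ih

end chains

variable {ι : Type}

def Cell (c : Cd) (L : ℕ) (R : Pt ι → Pt ι → Prop) (Q : c.obj (Pt ι)) : Set (c.obj (Sq ι)) :=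
  {A | c.val A ∧ (∀ a ∈ c.lv A, Simp L a) ∧ c.rel (fun x a => ∀ t < L, R x (a t)) Q A}

variable {c : Cd} {L L' : ℕ} {R R' : Pt ι → Pt ι → Prop} {Q Q' : c.obj (Pt ι)}

lemma Cell_image {f : Sq ι → Sq ι} (h : ∀ a x, Simp L a → (∀ t < L, R x (a t)) →
    Simp L' (f a) ∧ ∀ t < L', R' x (f a t)) {A : c.obj (Sq ι)} (hA : A ∈ Cell c L R Q) :
    c.map f A ∈ Cell c L' R' Q := by
  refine ⟨Cd.val_map f hA.1, fun b hb => ?_, Cd.rel_map_right.2
    (Cd.rel_mono (fun x _ a ha h1 => (h a x (hA.2.1 a ha) h1).2) hA.2.2)⟩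
  obtain ⟨a, ha, rfl⟩ := Cd.lv_map hb
  obtain ⟨x, -, h1⟩ := Cd.rel_lv hA.2.2 a ha
  exact (h a x (hA.2.1 a ha) h1).1

lemma Cell_mono (h : c.rel (fun x x' => 0 < L → ∀ y, R' x' y → R x y) Q Q') :
    Cell c L R' Q' ⊆ Cell c L R Q := fun _ hA =>
  ⟨hA.1, hA.2.1, Cd.rel_mono (fun _ _ _ _ ⟨_, _, h1, h2⟩ t ht => h1 (by omega) _ (h2 t ht))
    (Cd.rel_comp h hA.2.2)⟩

lemma Cell_fc {j : ℕ} (hj : j ≤ L) {A : c.obj (Sq ι)} (hA : A ∈ Cell c (L + 1) R Q) :
    c.map (fc j) A ∈ Cell c L R Q :=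
  Cell_image (fun a x h1 h2 => ⟨h1.fc hj, fun t ht => h2 _ (by split_ifs <;> omega)⟩) hA

lemma bd_e (L : ℕ) (A : c.obj (Sq ι)) : bd c L (e A) = ∑ j ∈ range L, e (c.map (fc j) A) := by
  simp [bd, D, LinearMap.sum_apply]

lemma bd_mem {x : c.obj (Sq ι) →₀ F} (hx : x ∈ Sp (Cell c (L + 1) R Q)) :
    bd c (L + 1) x ∈ Sp (Cell c L R Q) :=
  Sp_map _ _ (fun A hc => by
    rw [bd_e]
    exact Submodule.sum_mem _ fun j hj => e_mem (Cell_fc (Nat.lt_succ_iff.1 (mem_range.1 hj)) hc)) hx

lemma acyc (β : Pt ι → Pt ι) (b1 : ∀ x i, β x i ≤ x i)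
    (b2 : ∀ x y, (∀ i, β x i ≤ y i) → (∀ i, y i ≤ x i) → β y = β x) (hQ : c.val Q) (s : ℕ) :
    ∃ h : ℕ → En (c.obj (Sq ι)), ∀ L, ∀ x ∈ Sp (Cell c L (Rs β s) Q),
      h L x ∈ Sp (Cell c (L + 1) (Rs β s) Q) ∧
        bd c (L + 1) (h L x) + h (L - 1) (bd c L x) = x := by
  induction s with
  | zero =>
    let A : ℕ → c.obj (Sq ι) := fun L => c.map (fun x => cst L (β x)) Q
    have hA : ∀ L, A L ∈ Cell c L (Rs β 0) Q := fun L => by
      refine ⟨Cd.val_map _ hQ, fun a ha => ?_, Cd.rel_self fun x _ t ht => ?_⟩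
      · obtain ⟨x, -, rfl⟩ := Cd.lv_map ha
        exact cst_simp _ _
      · simp only [cst, if_pos ht]
        exact ⟨b2 _ _ (fun _ => le_rfl) (b1 x), fun _ => le_rfl⟩
    have hB : ∀ L, ∀ s ∈ Cell c L (Rs β 0) Q, s = A L := fun L s hc => by
      refine (Cd.rel_graph (Cd.rel_mono (fun x _ a ha h2 => ?_) hc.2.2)).symm
      funext t
      by_cases ht : t < L
      · simp only [cst, if_pos ht]
        funext i
        have h3 := b1 (a t) i
        rw [(h2 t ht).1] at h3
        exact le_antisymm h3 ((h2 t ht).2 i)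
      · simp only [cst, if_neg ht]
        exact ((hc.2.1 a ha).1 t (by omega)).symm
    have hC : ∀ L, bd c (L + 1) (e (A (L + 1))) = (L + 1) • e (A L) := fun L => by
      rw [bd_e, sum_congr rfl (g := fun _ => e (A L)), sum_const, card_range]
      intro j hj
      simp only [A, Cd.map_map, Function.comp_def, fc_cst (Nat.lt_succ_iff.1 (mem_range.1 hj))]
    refine ⟨fun L => lin fun _ => e (A (L + 1)), fun L x hx =>
      ⟨Sp_map _ _ (fun c _ => by rw [lin_e]; exact e_mem (hA _)) hx, ?_⟩⟩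
    refine Sp_eq (bd c (L + 1) * (lin fun _ => e (A (L + 1))) +
      (lin fun _ => e (A (L - 1 + 1))) * bd c L) 1 (fun s hc => ?_) hx
    rw [hB L s hc]
    simp only [LinearMap.add_apply, Module.End.mul_apply, lin_e, hC, Module.End.one_apply]
    cases L with
    | zero => simp [bd_zero]
    | succ L =>
      rw [hC, map_nsmul, lin_e, Nat.add_sub_cancel, succ_nsmul _ (L + 1), add_right_comm, add_self,
        zero_add]
  | succ s ih =>
    obtain ⟨h, hh1⟩ := ih
    let p : Pt ι → Pt ι := fun y i => min (y i) (β y i + s)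
    have p1 : ∀ x y, Rs β (s + 1) x y → Rs β s x (p y) := fun x y hy => by
      refine ⟨(b2 y (p y) (fun i => ?_) fun i => min_le_left _ _).trans hy.1, fun i => ?_⟩
      · exact le_min (b1 y i) (Nat.le_add_right _ _)
      · rw [← hy.1]; exact min_le_right _ _
    have p2 : ∀ x y, Rs β s x y → Rs β (s + 1) x y := fun x y hy =>
      ⟨hy.1, fun i => (hy.2 i).trans (by omega)⟩
    have p3 : ∀ L, Cell c L (Rs β s) Q ⊆ Cell c L (Rs β (s + 1)) Q := fun L =>
      Cell_mono (Cd.rel_mono (R := Eq) (fun x _ _ _ e _ => e ▸ p2 x) (c.rel_refl Q))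
    have p4 : ∀ L, ∀ x ∈ Sp (Cell c L (Rs β (s + 1)) Q),
        Im c (ap L p) x ∈ Sp (Cell c L (Rs β s) Q) := fun L x hx =>
      Sp_map _ _ (fun A hc => by
        rw [Im_e]
        refine e_mem (Cell_image (fun a x h1 h2 => ⟨⟨fun t ht => ?_, fun t t' h3 h4 i => ?_⟩,
          fun t ht => ?_⟩) hc)
        · simp only [ap, if_neg (show ¬ t < L by omega)]
          exact h1.1 t ht
        · have h5 : t < L := by omega
          have := h1.2 t t' h3 h4 i
          simp only [ap, if_pos h4, if_pos h5, p, (h2 t h5).1, (h2 t' h4).1]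
          omega
        · simp only [ap, if_pos ht]
          exact p1 _ _ (h2 t ht)) hx
    have p5 : ∀ L, ∀ x ∈ Sp (Cell c L (Rs β (s + 1)) Q),
        hh c p L x ∈ Sp (Cell c (L + 1) (Rs β (s + 1)) Q) := fun L x hx =>
      Sp_map _ _ (fun A hc => by
        rw [hh, LinearMap.sum_apply]
        refine Submodule.sum_mem _ fun j hj => ?_
        have hj' := mem_range.1 hj
        rw [Im_e]
        refine e_mem (Cell_image (fun a x h1 h2 => ⟨⟨fun t ht => ?_, fun t t' h3 h4 i => ?_⟩,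
          fun t ht => ?_⟩) hc)
        · simp only [pr, if_neg (show ¬ t ≤ j by omega)]
          exact h1.1 _ (by omega)
        · simp only [pr]
          split_ifs with h5 h6 h6
          · have := h1.2 t t' h3 (by omega) i
            simp only [p, (h2 t (by omega)).1, (h2 t' (by omega)).1]
            omega
          · have := h1.2 t (t' - 1) (by omega) (by omega) i
            have := (h2 (t' - 1) (by omega)).2 i
            simp only [p, (h2 t (by omega)).1]
            omega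
          · omega
          · exact h1.2 _ _ (by omega) (by omega) i
        · simp only [pr]
          split_ifs with h5
          · exact p2 _ _ (p1 _ _ (h2 t (by omega)))
          · exact h2 _ (by omega)) hx
    refine ⟨fun L => hh c p L + h L * Im c (ap L p), fun L x hx => ⟨?_, ?_⟩⟩
    · exact Submodule.add_mem _ (p5 L x hx) (Sp_mono (p3 _) (hh1 L _ (p4 L x hx)).1)
    · have q1 := LinearMap.congr_fun (prism c p L) x
      have q2 := (hh1 L _ (p4 L x hx)).2
      have q3 := LinearMap.congr_fun (bd_ap c p L) x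
      simp only [LinearMap.add_apply, Module.End.mul_apply, Module.End.one_apply, map_add] at q1 q3 ⊢
      rw [← q3]
      linear_combination (norm := abel1) q1 + q2 + add_self (Im c (ap L p) x)

lemma acycB (W : ι → Finset ℕ) (s : ℕ) (hs : ∀ i, (W i).card ≤ s) (hQ : c.val Q) :
    ∃ h : ℕ → En (c.obj (Sq ι)), ∀ L, ∀ x ∈ Sp (Cell c L (Rb W) Q),
      h L x ∈ Sp (Cell c (L + 1) (Rb W) Q) ∧ bd c (L + 1) (h L x) + h (L - 1) (bd c L x) = x := by
  have : Rb W = Rs (fun x i => bt (W i) (x i)) s := by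
    funext x y
    refine propext ⟨fun h => ⟨funext h, fun i => ?_⟩, fun h => congrFun h.1⟩
    have := bt_card (W i) (y i)
    have := hs i
    have := h i
    show y i ≤ bt (W i) (x i) + s
    omega
  rw [this]
  exact acyc (fun x i => bt (W i) (x i)) (fun x i => bt_le (W i) (x i))
    (fun x y h1 h2 => funext fun i => bt_mid (W := W i) (h1 i) (h2 i)) hQ s

end Pool.Agent.Lib.MP_3eb21e_gt.It
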