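import Pool.Agent.Lib.MP_3eb21e_gt.Pr.Top

/-!
Functors built from the identity by products and finite subsets, with relation lifting, and the
transfer law for odd sums mod 2.
-/

noncomputable section

namespace Pool.Agent.Lib.MP_3eb21e_gt.It

open Finset
open Pool.Agent.Lib.MP_3eb21e_gt.Ch (F add_self)
open scoped Classical

inductive Cd : Type
  | pt : Cd
  | pr : Cd → Cd → Cd
  | sy : ℕ → Cd → Cd

namespace Cd

def obj : Cd → Type → Type
  | pt, X => X
  | pr c d, X => obj c X × obj d X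
  | sy _ c, X => Finset (obj c X)

variable {X Y Z X' Y' : Type}

def map (f : X → Y) : (c : Cd) → c.obj X → c.obj Y
  | pt, x => f x
  | pr c d, x => (map f c x.1, map f d x.2)
  | sy _ c, A => Finset.image (map f c) A

def val : (c : Cd) → c.obj X → Prop
  | pt, _ => True
  | pr c d, x => val c x.1 ∧ val d x.2
  | sy n c, A => Finset.Nonempty A ∧ Finset.card A ≤ n + 1 ∧
      ∀ a ∈ (show Finset (obj c X) from A), val c a

def lv : (c : Cd) → c.obj X → Finset X
  | pt, x => {x}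
  | pr c d, x => lv c x.1 ∪ lv d x.2
  | sy _ c, A => Finset.biUnion A (lv c)

def wt : Cd → ℕ
  | pt => 1
  | pr c d => wt c + wt d
  | sy n c => (n + 1) * wt c

def rel (R : X → Y → Prop) : (c : Cd) → c.obj X → c.obj Y → Prop
  | pt, x, y => R x y
  | pr c d, x, y => rel R c x.1 y.1 ∧ rel R d x.2 y.2
  | sy _ c, A, B =>
      (∀ a ∈ (show Finset (obj c X) from A), ∃ b ∈ (show Finset (obj c Y) from B), rel R c a b) ∧
        ∀ b ∈ (show Finset (obj c Y) from B), ∃ a ∈ (show Finset (obj c X) from A), rel R c a b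

def base (x : X) : (c : Cd) → c.obj X
  | pt => x
  | pr c d => (base x c, base x d)
  | sy _ c => ({base x c} : Finset (obj c X))

lemma map_map (f : Y → Z) (g : X → Y) (c : Cd) (t : c.obj X) :
    c.map f (c.map g t) = c.map (f ∘ g) t := by
  induction c with
  | pt => rfl
  | pr c d h1 h2 => exact Prod.ext (h1 _) (h2 _)
  | sy n c h => exact image_image.trans (image_congr fun a _ => h a)

lemma map_id (c : Cd) (t : c.obj X) : c.map id t = t := by
  induction c with
  | pt => rfl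
  | pr c d h1 h2 => exact Prod.ext (h1 _) (h2 _)
  | sy n c h => exact (image_congr fun a _ => h a).trans image_id

lemma val_map (f : X → Y) {c : Cd} {t : c.obj X} (ht : c.val t) : c.val (c.map f t) := by
  induction c with
  | pt => trivial
  | pr c d h1 h2 => exact ⟨h1 ht.1, h2 ht.2⟩
  | sy n c h =>
    refine ⟨ht.1.image _, card_image_le.trans ht.2.1, fun b hb => ?_⟩
    obtain ⟨a, ha, rfl⟩ := mem_image.1 hb
    exact h (ht.2.2 a ha)

lemma card_lv {c : Cd} {t : c.obj X} (ht : c.val t) : (c.lv t).card ≤ c.wt := by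
  induction c with
  | pt => exact (card_singleton _).le
  | pr c d h1 h2 => exact (card_union_le _ _).trans (add_le_add (h1 ht.1) (h2 ht.2))
  | sy n c h =>
    exact (card_biUnion_le_card_mul _ _ _ fun a ha => h (ht.2.2 a ha)).trans
      (Nat.mul_le_mul_right _ ht.2.1)

lemma rel_mono {R R' : X → Y → Prop} {c : Cd} {s : c.obj X} {t : c.obj Y}
    (h : ∀ x ∈ c.lv s, ∀ y ∈ c.lv t, R x y → R' x y) (hr : c.rel R s t) : c.rel R' s t := by
  induction c with
  | pt => exact h _ (mem_singleton_self _) _ (mem_singleton_self _) hr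
  | pr c d h1 h2 =>
    exact ⟨h1 (fun x hx y hy => h x (mem_union_left _ hx) y (mem_union_left _ hy)) hr.1,
      h2 (fun x hx y hy => h x (mem_union_right _ hx) y (mem_union_right _ hy)) hr.2⟩
  | sy n c ih =>
    have key : ∀ a ∈ (show Finset (obj c X) from s), ∀ b ∈ (show Finset (obj c Y) from t),
        c.rel R a b → c.rel R' a b := fun a ha b hb =>
      ih fun x hx y hy => h x (mem_biUnion.2 ⟨a, ha, hx⟩) y (mem_biUnion.2 ⟨b, hb, hy⟩)
    exact ⟨fun a ha => (hr.1 a ha).imp fun b hb => ⟨hb.1, key a ha b hb.1 hb.2⟩,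
      fun b hb => (hr.2 b hb).imp fun a ha => ⟨ha.1, key a ha.1 b hb ha.2⟩⟩

lemma rel_refl (c : Cd) (t : c.obj X) : c.rel Eq t t := by
  induction c with
  | pt => rfl
  | pr c d h1 h2 => exact ⟨h1 _, h2 _⟩
  | sy n c h => exact ⟨fun a ha => ⟨a, ha, h a⟩, fun a ha => ⟨a, ha, h a⟩⟩

lemma rel_comp {R : X → Y → Prop} {S : Y → Z → Prop} {c : Cd} {s : c.obj X} {t : c.obj Y}
    {u : c.obj Z} (h1 : c.rel R s t) (h2 : c.rel S t u) :
    c.rel (fun x z => ∃ y ∈ c.lv t, R x y ∧ S y z) s u := by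
  induction c with
  | pt => exact ⟨t, mem_singleton_self _, h1, h2⟩
  | pr c d i1 i2 =>
    exact ⟨rel_mono (fun _ _ _ _ h => h.imp fun _ h => ⟨mem_union_left _ h.1, h.2⟩) (i1 h1.1 h2.1),
      rel_mono (fun _ _ _ _ h => h.imp fun _ h => ⟨mem_union_right _ h.1, h.2⟩) (i2 h1.2 h2.2)⟩
  | sy n c ih =>
    refine ⟨fun a ha => ?_, fun w hw => ?_⟩
    · obtain ⟨b, hb, h3⟩ := h1.1 a ha
      obtain ⟨w, hw, h4⟩ := h2.1 b hb
      exact ⟨w, hw, rel_mono (fun _ _ _ _ h => h.imp fun _ h =>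
        ⟨mem_biUnion.2 ⟨b, hb, h.1⟩, h.2⟩) (ih h3 h4)⟩
    · obtain ⟨b, hb, h4⟩ := h2.2 w hw
      obtain ⟨a, ha, h3⟩ := h1.2 b hb
      exact ⟨a, ha, rel_mono (fun _ _ _ _ h => h.imp fun _ h =>
        ⟨mem_biUnion.2 ⟨b, hb, h.1⟩, h.2⟩) (ih h3 h4)⟩

lemma rel_map {R : X' → Y' → Prop} {f : X → X'} {g : Y → Y'} {c : Cd} {s : c.obj X}
    {t : c.obj Y} : c.rel R (c.map f s) (c.map g t) ↔ c.rel (fun x y => R (f x) (g y)) s t := by
  induction c with
  | pt => rfl
  | pr c d h1 h2 => exact and_congr h1 h2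
  | sy n c h =>
    simp only [rel, map, forall_mem_image, exists_mem_image, h]

lemma rel_map_right {R : X → Y' → Prop} {g : Y → Y'} {c : Cd} {s : c.obj X} {t : c.obj Y} :
    c.rel R s (c.map g t) ↔ c.rel (fun x y => R x (g y)) s t := by
  have := rel_map (R := R) (f := id) (g := g) (s := s) (t := t)
  rwa [map_id] at this

lemma rel_eq {c : Cd} {s t : c.obj X} (h : c.rel Eq s t) : s = t := by
  induction c with
  | pt => exact h
  | pr c d h1 h2 => exact Prod.ext (h1 h.1) (h2 h.2)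
  | sy n c ih =>
    refine Finset.ext fun a => ⟨fun ha => ?_, fun ha => ?_⟩
    · obtain ⟨b, hb, h1⟩ := h.1 a ha
      exact ih h1 ▸ hb
    · obtain ⟨b, hb, h1⟩ := h.2 a ha
      exact ih h1 ▸ hb

lemma rel_graph {f : X → Y} {c : Cd} {s : c.obj X} {t : c.obj Y}
    (h : c.rel (fun x y => f x = y) s t) : c.map f s = t := by
  refine rel_eq ?_
  have := (rel_map (R := Eq) (f := f) (g := id)).2 h
  rwa [map_id] at this

lemma rel_true {c : Cd} {s : c.obj X} {t : c.obj Y} (hs : c.val s) (ht : c.val t) :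
    c.rel (fun _ _ => True) s t := by
  induction c with
  | pt => trivial
  | pr c d h1 h2 => exact ⟨h1 hs.1 ht.1, h2 hs.2 ht.2⟩
  | sy n c h =>
    exact ⟨fun a ha => ht.1.imp fun b hb => ⟨hb, h (hs.2.2 a ha) (ht.2.2 b hb)⟩,
      fun b hb => hs.1.imp fun a ha => ⟨ha, h (hs.2.2 a ha) (ht.2.2 b hb)⟩⟩

lemma rel_lv {R : X → Y → Prop} {c : Cd} {s : c.obj X} {t : c.obj Y} (h : c.rel R s t) :
    ∀ y ∈ c.lv t, ∃ x ∈ c.lv s, R x y := by
  induction c with
  | pt => exact fun y hy => ⟨s, mem_singleton_self _, mem_singleton.1 hy ▸ h⟩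
  | pr c d h1 h2 =>
    intro y hy
    rcases mem_union.1 hy with hy | hy
    · exact (h1 h.1 y hy).imp fun _ h => ⟨mem_union_left _ h.1, h.2⟩
    · exact (h2 h.2 y hy).imp fun _ h => ⟨mem_union_right _ h.1, h.2⟩
  | sy n c ih =>
    intro y hy
    obtain ⟨b, hb, h1⟩ := mem_biUnion.1 hy
    obtain ⟨a, ha, h2⟩ := h.2 b hb
    exact (ih h2 y h1).imp fun _ h => ⟨mem_biUnion.2 ⟨a, ha, h.1⟩, h.2⟩

lemma rel_self {R : X → Y → Prop} {g : X → Y} {c : Cd} {s : c.obj X}
    (h : ∀ x ∈ c.lv s, R x (g x)) : c.rel R s (c.map g s) :=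
  rel_map_right.2 (rel_mono (R := Eq) (fun x hx _ _ e => e ▸ h x hx) (c.rel_refl s))

lemma lv_map {f : X → Y} {c : Cd} {t : c.obj X} {y : Y} (hy : y ∈ c.lv (c.map f t)) :
    ∃ x ∈ c.lv t, f x = y :=
  rel_lv (rel_self (R := fun x y => f x = y) fun _ _ => rfl) y hy

lemma val_base (x : X) (c : Cd) : c.val (c.base x) := by
  induction c with
  | pt => trivial
  | pr c d h1 h2 => exact ⟨h1, h2⟩
  | sy n c h =>
    exact ⟨singleton_nonempty _, (card_singleton _).le.trans (by omega),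
      fun a ha => mem_singleton.1 ha ▸ h⟩

lemma lv_base {x y : X} {c : Cd} (hy : y ∈ c.lv (c.base x)) : y = x := by
  induction c with
  | pt => exact mem_singleton.1 hy
  | pr c d h1 h2 => exact (mem_union.1 hy).elim h1 h2
  | sy n c h =>
    obtain ⟨a, ha, h1⟩ := mem_biUnion.1 hy
    exact h (mem_singleton.1 ha ▸ h1)

lemma finite_obj {S : Set X} (hS : S.Finite) (c : Cd) :
    {t : c.obj X | ∀ x ∈ c.lv t, x ∈ S}.Finite := by
  induction c with
  | pt => exact hS.subset fun t ht => ht t (mem_singleton_self _)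
  | pr c d h1 h2 =>
    exact (h1.prod h2).subset fun t ht =>
      ⟨fun x hx => ht x (mem_union_left _ hx), fun x hx => ht x (mem_union_right _ hx)⟩
  | sy n c h =>
    refine h.toFinset.powerset.finite_toSet.subset fun A hA => ?_
    exact mem_coe.2 (mem_powerset.2 fun a ha =>
      h.mem_toFinset.2 fun x hx => hA x (mem_biUnion.2 ⟨a, ha, hx⟩))

end Cd

variable {X Y X' Y' : Type}

def emb : (X →₀ F) →ₗ[F] Pr.Chn X := Finsupp.linearCombination F fun x => Pr.e {x}

lemma emb_single (x : X) : emb (Finsupp.single x 1) = Pr.e {x} := by simp [emb]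

lemma co_emb (u : X →₀ F) (b : X) : Pr.co {b} (emb u) = u b := by
  have : Pr.co {b} ∘ₗ emb = Finsupp.lapply b := by
    refine Finsupp.lhom_ext' fun x => LinearMap.ext_ring ?_
    simp [emb_single, Pr.co_e, Finsupp.single_apply]
  exact LinearMap.congr_fun this u

lemma emb_mem (u : X →₀ F) : emb u ∈ Pr.Sp {s | ∃ b, s = {b} ∧ u b ≠ 0} := by
  rw [emb, Finsupp.linearCombination_apply]
  exact Submodule.sum_mem _ fun b hb =>
    Submodule.smul_mem _ _ (Pr.e_mem ⟨b, rfl, Finsupp.mem_support_iff.1 hb⟩)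

lemma Im_emb (g : X → X) (u : X →₀ F) : Pr.Im g (emb u) = emb (u.mapDomain g) := by
  have : Pr.Im g ∘ₗ emb = emb ∘ₗ Finsupp.lmapDomain F F g := by
    refine Finsupp.lhom_ext' fun x => LinearMap.ext_ring ?_
    simp [emb_single]
  exact LinearMap.congr_fun this u

lemma coeff_Im (g : X → X) (y : Pr.Chn X) :
    (Pr.Im g y).coeff = y.coeff.mapDomain (show Pr.U X → Pr.U X from Finset.image g) := by
  have : (MonoidAlgebra.coeffLinearEquiv F).toLinearMap ∘ₗ Pr.Im g =
      Finsupp.lmapDomain F F (show Pr.U X → Pr.U X from Finset.image g) ∘ₗ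
        (MonoidAlgebra.coeffLinearEquiv F).toLinearMap := by
    refine Pr.ext_e fun A => ?_
    rw [LinearMap.comp_apply, Pr.Im_e]
    simp [Pr.e]
  exact LinearMap.congr_fun this y

def tens (u : X →₀ F) (v : Y →₀ F) : X × Y →₀ F := finsuppTensorFinsupp' F X Y (u ⊗ₜ v)

lemma tens_map (f : X → X') (g : Y → Y') (u : X →₀ F) (v : Y →₀ F) :
    (tens u v).mapDomain (Prod.map f g) = tens (u.mapDomain f) (v.mapDomain g) := by
  unfold tens
  induction u using Finsupp.induction_linear with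
  | zero => simp
  | add u u' h1 h2 => simp [TensorProduct.add_tmul, Finsupp.mapDomain_add, h1, h2]
  | single a r =>
    induction v using Finsupp.induction_linear with
    | zero => simp
    | add v v' h1 h2 =>
      rw [TensorProduct.tmul_add, map_add, Finsupp.mapDomain_add, h1, h2, Finsupp.mapDomain_add,
        TensorProduct.tmul_add, map_add]
    | single b s =>
      simp only [Finsupp.mapDomain_single, finsuppTensorFinsupp'_single_tmul_single, Prod.map_apply]

/-- the transfer law -/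
def dl (x : X → X →₀ F) : (c : Cd) → c.obj X → c.obj X →₀ F
  | .pt, a => x a
  | .pr c d, t => tens (dl x c t.1) (dl x d t.2)
  | .sy _ c, A => (∏ a ∈ (show Finset (c.obj X) from A), emb (dl x c a)).coeff

lemma dl_nat {f : X → X} {x x' : X → X →₀ F} (h : ∀ a, (x' a).mapDomain f = x (f a)) (c : Cd)
    (t : c.obj X) : (dl x' c t).mapDomain (c.map f) = dl x c (c.map f t) := by
  induction c with
  | pt => exact h t
  | pr c d h1 h2 =>
    exact (tens_map (c.map f) (d.map f) _ _).trans (congrArg₂ tens (h1 _) (h2 _))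
  | sy n c ih =>
    refine (coeff_Im (c.map f) _).symm.trans (congrArg MonoidAlgebra.coeff ?_)
    rw [Pr.Im_prod]
    simp only [Im_emb, ih]
    exact Pr.prod_img t (c.map f) fun b => emb (dl x c b)

lemma dl_unit {x : X → X →₀ F} (h : ∀ a, x a = Finsupp.single a 1) (c : Cd) (t : c.obj X) :
    dl x c t = Finsupp.single t 1 := by
  induction c with
  | pt => exact h t
  | pr c d h1 h2 =>
    refine (congrArg₂ tens (h1 _) (h2 _)).trans ?_
    rw [tens, finsuppTensorFinsupp'_single_tmul_single, one_mul]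
    rfl
  | sy n c ih =>
    have : ∀ A : Finset (c.obj X), ∏ a ∈ A, emb (dl x c a) = Pr.e A := fun A => by
      induction A using Finset.induction_on with
      | empty => rfl
      | insert a A ha h1 => rw [prod_insert ha, h1, ih, emb_single, Pr.e_mul, insert_eq]
    exact congrArg MonoidAlgebra.coeff (this t)

lemma dl_supp (x : X → X →₀ F) {c : Cd} {t t' : c.obj X} (ht : c.val t) (h : dl x c t t' ≠ 0) :
    c.val t' ∧ c.rel (fun a b => x a b ≠ 0) t t' := by
  induction c with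
  | pt => exact ⟨trivial, h⟩
  | pr c d h1 h2 =>
    have h3 : dl x c t.1 t'.1 * dl x d t.2 t'.2 ≠ 0 := by
      rwa [← finsuppTensorFinsupp'_apply_apply]
    have a1 := h1 ht.1 (left_ne_zero_of_mul h3)
    have a2 := h2 ht.2 (right_ne_zero_of_mul h3)
    exact ⟨⟨a1.1, a2.1⟩, a1.2, a2.2⟩
  | sy n c ih =>
    obtain ⟨h1, h2, h3⟩ := Pr.Sp_supp (c := t') (Pr.prod_mem (fun a b => dl x c a b ≠ 0)
      (fun a => emb (dl x c a)) t fun a _ => emb_mem _) h
    refine ⟨⟨?_, h1.trans ht.2.1, fun b hb => ?_⟩, fun a ha => ?_, fun b hb => ?_⟩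
    · obtain ⟨a, ha⟩ := ht.1
      exact (h3 a ha).imp fun _ h => h.1
    · obtain ⟨a, ha, h4⟩ := h2 b hb
      exact (ih (ht.2.2 a ha) h4).1
    · exact (h3 a ha).imp fun b hb => ⟨hb.1, (ih (ht.2.2 a ha) hb.2).2⟩
    · exact (h2 b hb).imp fun a ha => ⟨ha.1, (ih (ht.2.2 a ha.1) ha.2).2⟩

end Pool.Agent.Lib.MP_3eb21e_gt.It
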