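import Pool.Agent.Lib.MP_3eb21e_gt.Sym
import Pool.Agent.Lib.MP_3eb21e_gt.Ch.Defs

/-!
The class of maps generated from maps of continua onto chainable continua by products, symmetric
products, factorisation and approximation.
-/

namespace Pool.Agent.Lib.MP_3eb21e_gt

/-- The map induced on the symmetric products: a set goes to its image. -/
def symMap {X Y : Type} (f : X → Y) (n : ℕ) (A : SymProd X n) : SymProd Y n :=
  ⟨f '' A.pts, A.nonempty.image f, A.finite.image f,
    (Set.ncard_image_le A.finite).trans A.card_le⟩

/-- The smallest class of maps that contains the continuous surjections of continua onto chainable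
continua and is closed under products, symmetric products, factorisation (for identity maps:
retracts) and approximation by maps with small fibres. -/
inductive Gen : ∀ (X Y : Type) [TopologicalSpace X] [TopologicalSpace Y], (X → Y) → Prop
  | arc (X Y : Type) [TopologicalSpace X] [CompactSpace X] [T2Space X] [ConnectedSpace X]
      [TopologicalSpace Y] [CompactSpace Y] [T2Space Y] (f : X → Y) :
      Chainable Y → Continuous f → Function.Surjective f → Gen X Y f
  | pi (I : Type) (X Y : I → Type) [∀ i, TopologicalSpace (X i)] [∀ i, TopologicalSpace (Y i)]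
      (f : ∀ i, X i → Y i) :
      (∀ i, Gen (X i) (Y i) (f i)) → Gen (∀ i, X i) (∀ i, Y i) fun x i => f i (x i)
  | sym (X Y : Type) [TopologicalSpace X] [TopologicalSpace Y] (f : X → Y) (n : ℕ) :
      1 ≤ n → Gen X Y f → Gen (SymProd X n) (SymProd Y n) (symMap f n)
  | factor (X Y X' Y' : Type) [TopologicalSpace X] [TopologicalSpace Y] [TopologicalSpace X']
      [CompactSpace X'] [T2Space X'] [TopologicalSpace Y'] (f : X → Y) (f' : X' → Y') (p : X → X')
      (q : Y → Y') (j : Y' → Y) : Continuous f' → Continuous p → Continuous q → Continuous j →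
      f' ∘ p = q ∘ f → q ∘ j = id → Gen X Y f → Gen X' Y' f'
  | approx (X Y I : Type) (Z : I → Type) [TopologicalSpace X] [TopologicalSpace Y] [CompactSpace Y]
      [T2Space Y] [∀ i, TopologicalSpace (Z i)] (f : X → Y) (h : ∀ i, Y → Z i) :
      Continuous f → (∀ i, Continuous (h i)) →
      (∀ U ∈ nhdsSet (Set.diagonal Y), ∃ i, ∀ a b, h i a = h i b → (a, b) ∈ U) →
      (∀ i, Gen X (Z i) (h i ∘ f)) → Gen X Y f

end Pool.Agent.Lib.MP_3eb21e_gt
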