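import Pool.Agent.Lib.MP_3eb21e_gt.It.Car

/-!
The discrete coincidence theorem for a functor built from products and finite subsets.
-/

noncomputable section

namespace Pool.Agent.Lib.MP_3eb21e_gt.It

open Finset
open Pool.Agent.Lib.MP_3eb21e_gt.Ch (F add_self)
open Pool.Agent.Lib.MP_3eb21e_gt.Pr (fc ap fc_ap Pt Sq Simp Rb bt bt_le bt_eq bt_mono bt_card Nb
  mem_Nb card_Nb Rb_range Ph Mt Ov Mt_zero Mt_mem)
open scoped Classical

variable {ι : Type} {c : Cd} {L d : ℕ} {m r : ι → ℕ} {Q Q' : c.obj (Pt ι)}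

def Ok (c : Cd) (m : ι → ℕ) (B : c.obj (Pt ι)) : Prop := c.val B ∧ ∀ x ∈ c.lv B, ∀ i, x i ≤ m i

def Cl (c : Cd) (t : ℕ) (A B : c.obj (Pt ι)) : Prop :=
  c.rel (fun a b => ∀ i, a i ≤ b i + t ∧ b i ≤ a i + t) A B

def Full (c : Cd) (L : ℕ) (r : ι → ℕ) : Set (c.obj (Sq ι)) :=
  Cell c L (Rb fun i => range (r i)) (c.base 0)

def pts (c : Cd) (A : c.obj (Sq ι)) : c.obj (Pt ι) := c.map (fun a => a 0) A

def Car (c : Cd) (L : ℕ) (r : ι → ℕ) (d : ℕ) (Q : c.obj (Pt ι)) : Set (c.obj (Sq ι)) :=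
  Cell c L (Rb (Nb r d (c.lv Q))) Q

def Deg (c : Cd) (L : ℕ) (s : c.obj (Sq ι)) : Prop :=
  ∃ i, i + 1 < L ∧ ∀ a ∈ c.lv s, a i = a (i + 1)

lemma mem_Full {A : c.obj (Sq ι)} : A ∈ Full c L r ↔
    c.val A ∧ ∀ a ∈ c.lv A, Simp L a ∧ ∀ t < L, ∀ i, a t i ≤ r i := by
  refine and_congr_right fun h0 => ⟨fun h a ha => ⟨h.1 a ha, fun t ht => ?_⟩, fun h =>
    ⟨fun a ha => (h a ha).1, Cd.rel_mono (fun x hx a ha _ t ht => ?_)
      (Cd.rel_true (c.val_base 0) h0)⟩⟩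
  · obtain ⟨x, hx, h1⟩ := Cd.rel_lv h.2 a ha
    rw [Cd.lv_base hx] at h1
    exact Rb_range.1 (h1 t ht)
  · rw [Cd.lv_base hx]
    exact Rb_range.2 ((h a ha).2 t ht)

lemma Full_finite [Fintype ι] (c : Cd) (L : ℕ) (r : ι → ℕ) : (Full c L r).Finite := by
  have h1 : {a : Sq ι | Simp L a ∧ ∀ t < L, ∀ i, a t i ≤ r i}.Finite := by
    refine Set.Finite.of_finite_image (f := fun a (t : Fin L) => a t) ?_ ?_
    · refine (Set.Finite.pi' fun _ : Fin L => Set.finite_Iic r).subset ?_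
      rintro _ ⟨a, ha, rfl⟩ t
      exact ha.2 t t.2
    · intro a ha b hb h
      funext t
      by_cases ht : t < L
      · exact congrFun h ⟨t, ht⟩
      · rw [ha.1.1 t (by omega), hb.1.1 t (by omega)]
  exact (c.finite_obj h1).subset fun A hA => (mem_Full.1 hA).2

lemma Full_Ok {A : c.obj (Sq ι)} (hA : A ∈ Full c L m) : Ok c m (pts c A) := by
  obtain ⟨h1, h3⟩ := mem_Full.1 hA
  refine ⟨Cd.val_map _ h1, fun x hx i => ?_⟩
  obtain ⟨a, ha, rfl⟩ := Cd.lv_map hx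
  rcases L.eq_zero_or_pos with rfl | hL
  · rw [(h3 a ha).1.1 0 le_rfl]
    exact Nat.zero_le _
  · exact (h3 a ha).2 0 hL i

lemma Cell_zero {R R' : Pt ι → Pt ι → Prop} (hQ : c.val Q) (hQ' : c.val Q') :
    Cell c 0 R' Q' ⊆ Cell c 0 R Q :=
  Cell_mono (Cd.rel_mono (fun _ _ _ _ _ h => absurd h (lt_irrefl _)) (Cd.rel_true hQ hQ'))

lemma Car_mono (hQ : Ok c r Q) (hQ' : Ok c r Q') (h : 0 < L → Cl c 1 Q Q') :
    Car c L r d Q' ⊆ Car c L r (d + 1) Q := by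
  rcases L.eq_zero_or_pos with rfl | hL
  · exact Cell_zero hQ.1 hQ'.1
  refine Cell_mono (Cd.rel_mono (fun x hx x' hx' h1 _ y hy i => ?_) (h hL))
  have h2 : Nb r d (c.lv Q') i ⊆ Nb r (d + 1) (c.lv Q) i := fun t ht => by
    obtain ⟨h3, b, hb, h4⟩ := mem_Nb.1 ht
    obtain ⟨a, ha, h5⟩ := Cd.rel_lv (h hL) b hb
    have := h5 i
    exact mem_Nb.2 ⟨h3, a, ha, by omega⟩
  rw [bt_mono h2 (hy i)]
  have := h1 i
  have := hQ.2 x hx i
  have := hQ'.2 x' hx' i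
  rcases le_total (x i) (x' i) with h3 | h3
  · exact bt_eq h3 fun t _ _ => mem_Nb.2 ⟨by omega, x, hx, by omega⟩
  · exact (bt_eq h3 fun t _ _ => mem_Nb.2 ⟨by omega, x, hx, by omega⟩).symm

lemma Car_Full (hQ : Ok c r Q) : Car c L r d Q ⊆ Full c L r := by
  refine Cell_mono (Cd.rel_mono (fun z hz x hx _ _ y hy i => ?_) (Cd.rel_true (c.val_base 0) hQ.1))
  rw [Cd.lv_base hz]
  exact (bt_mono (filter_subset _ _) (hy i)).trans (Rb_range.2 (hQ.2 x hx) i)

lemma Car_Cl (hQ : Ok c r Q) (hL : 0 < L) {s : c.obj (Sq ι)} (hc : s ∈ Car c L r d Q) :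
    Cl c (c.wt * (2 * d)) Q (pts c s) := by
  refine Cd.rel_map_right.2 (Cd.rel_mono (fun x _ a _ h i => ?_) hc.2.2)
  have := h 0 hL i
  have := bt_card (Nb r d (c.lv Q) i) (x i)
  have := bt_card (Nb r d (c.lv Q) i) (a 0 i)
  have := bt_le (Nb r d (c.lv Q) i) (x i)
  have := bt_le (Nb r d (c.lv Q) i) (a 0 i)
  have := card_Nb (r := r) (d := d) (Cd.card_lv hQ.1) i
  omega

lemma face_Cl {s : c.obj (Sq ι)} (hs : s ∈ Full c (L + 1) m) (j : ℕ) (hL : 0 < L) :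
    Cl c 1 (pts c s) (pts c (c.map (fc j) s)) := by
  refine Cd.rel_map.2 (Cd.rel_self fun a ha i => ?_)
  have := (hs.2.1 a ha).2 0 (0 + 1) (by omega) (by omega) i
  simp only [fc]
  split_ifs <;> omega

lemma deg_of_big [Fintype ι] {s : c.obj (Sq ι)} (hs : s ∈ Full c L m)
    (hL : c.wt * Fintype.card ι + 1 < L) : Deg c L s := by
  by_contra h
  have h1 : ∀ t : Fin (L - 1), ∃ p : c.lv s × ι, p.1.1 t p.2 ≠ p.1.1 (t + 1) p.2 := fun t => by
    by_contra h2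
    refine h ⟨t, by omega, fun a ha => funext fun i => ?_⟩
    by_contra h3
    exact h2 ⟨(⟨a, ha⟩, i), h3⟩
  choose f hf using h1
  have h2 : ∀ t t' : Fin (L - 1), t < t' → f t ≠ f t' := fun t t' h3 h4 => by
    have h5 := hf t
    have h6 := hf t'
    rw [← h4] at h6
    have h7 := (hs.2.1 _ (f t).1.2).2
    have h8 : (t : ℕ) < t' := h3
    have := h7 t (t + 1) (by omega) (by omega) (f t).2
    have := h7 (t + 1) t' (by omega) (by omega) (f t).2
    have := h7 t' (t' + 1) (by omega) (by omega) (f t).2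
    have := h7 t (t' + 1) (by omega) (by omega) (f t).2
    omega
  have h3 := Fintype.card_le_of_injective f (Function.Injective.of_lt_imp_ne h2)
  rw [Fintype.card_fin, Fintype.card_prod, Fintype.card_coe] at h3
  have := Nat.mul_le_mul_right (Fintype.card ι) (Cd.card_lv hs.1)
  omega

lemma deg_bd {s : c.obj (Sq ι)} (hs : s ∈ Full c (L + 1) m) (hd : Deg c (L + 1) s)
    (γ : En (c.obj (Sq ι))) (hγ : ∀ s ∈ Full c L m, Deg c L s → γ (e s) = 0) :
    γ (bd c (L + 1) (e s)) = 0 := by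
  obtain ⟨i, hi, h⟩ := hd
  rw [bd_e, map_sum, sum_eq_add_of_mem i (i + 1) (mem_range.2 (by omega)) (mem_range.2 hi)
    (by omega)]
  · have : c.map (fc i) s = c.map (fc (i + 1)) s := Cd.rel_graph (Cd.rel_self fun a ha => by
      funext t
      simp only [fc]
      by_cases ht : t = i
      · rw [ht, if_neg (lt_irrefl _), if_pos i.lt_succ_self, h a ha]
      · congr 1
        split_ifs <;> omega)
    rw [this, add_self]
  · intro j hj h1
    have hj' := mem_range.1 hj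
    refine hγ _ (Cell_fc (by omega) hs) ?_
    by_cases h2 : j < i
    · refine ⟨i - 1, by omega, fun b hb => ?_⟩
      obtain ⟨a, ha, rfl⟩ := Cd.lv_map hb
      simp only [fc]
      rw [if_neg (by omega), if_neg (by omega), show i - 1 + 1 = i by omega, h a ha]
    · refine ⟨i, by omega, fun b hb => ?_⟩
      obtain ⟨a, ha, rfl⟩ := Cd.lv_map hb
      simp only [fc]
      rw [if_pos (by omega), if_pos (by omega), h a ha]

lemma exists_gam (G : c.obj (Pt ι) → c.obj (Pt ι)) (hG : ∀ B, Ok c m B → Ok c r (G B))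
    (hL : ∀ B B', Ok c m B → Ok c m B' → Cl c 1 B B' → Cl c 1 (G B) (G B')) :
    ∃ γ : ℕ → En (c.obj (Sq ι)), γ 0 = 1 ∧ (∀ L, ∀ s ∈ Full c L m,
      γ L (e s) ∈ Sp (Car c L r L (G (pts c s))) ∧ (Deg c L s → γ L (e s) = 0)) ∧
      ∀ L, ∀ s ∈ Full c (L + 1) m,
        bd c (L + 1) (γ (L + 1) (e s)) = γ L (bd c (L + 1) (e s)) := by
  let Inv : ℕ → En (c.obj (Sq ι)) → En (c.obj (Sq ι)) → Prop := fun L γp γ => ∀ s ∈ Full c L m,
    (γ (e s) ∈ Sp (Car c L r L (G (pts c s))) ∧ (Deg c L s → γ (e s) = 0)) ∧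
      bd c L (γ (e s)) = γp (bd c L (e s))
  have step : ∀ L (p : En (c.obj (Sq ι)) × En (c.obj (Sq ι))),
      ∃ γn, Inv L p.1 p.2 → Inv (L + 1) p.2 γn := by
    rintro L ⟨γp, γ⟩
    by_cases hγ : Inv L γp γ
    swap
    · exact ⟨0, fun h => absurd h hγ⟩
    have key : ∀ s, ∃ y, s ∈ Full c (L + 1) m →
        (y ∈ Sp (Car c (L + 1) r (L + 1) (G (pts c s))) ∧ (Deg c (L + 1) s → y = 0)) ∧
          bd c (L + 1) y = γ (bd c (L + 1) (e s)) := by
      intro s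
      by_cases hs : s ∈ Full c (L + 1) m
      swap
      · exact ⟨0, fun h => absurd h hs⟩
      by_cases hd : Deg c (L + 1) s
      · refine ⟨0, fun _ => ⟨⟨zero_mem _, fun _ => rfl⟩, ?_⟩⟩
        rw [map_zero, deg_bd hs hd γ fun s hs => (hγ s hs).1.2]
      have hQ := hG _ (Full_Ok hs)
      obtain ⟨h, h1⟩ := acycB (Nb r (L + 1) (c.lv (G (pts c s)))) _
        (card_Nb (Cd.card_lv hQ.1)) hQ.1
      have y1 : γ (bd c (L + 1) (e s)) ∈ Sp (Car c L r (L + 1) (G (pts c s))) := by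
        rw [bd_e, map_sum]
        refine Submodule.sum_mem _ fun j hj => ?_
        have hs' : c.map (fc j) s ∈ Full c L m := Cell_fc (Nat.lt_succ_iff.1 (mem_range.1 hj)) hs
        exact Sp_mono (Car_mono hQ (hG _ (Full_Ok hs')) fun h0 =>
          hL _ _ (Full_Ok hs) (Full_Ok hs') (face_Cl hs j h0)) (hγ _ hs').1.1
      have y2 : bd c L (γ (bd c (L + 1) (e s))) = 0 := by
        have := Sp_eq (bd c L * γ) (γp * bd c L) (fun s' hs' => (hγ s' hs').2) (bd_mem (e_mem hs))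
        have h2 := LinearMap.congr_fun (bd_bd c L) (e s)
        simp only [Module.End.mul_apply, LinearMap.zero_apply] at this h2
        rw [this, h2, map_zero]
      refine ⟨h L (γ (bd c (L + 1) (e s))), fun _ => ⟨⟨(h1 L _ y1).1, fun h => absurd h hd⟩, ?_⟩⟩
      simpa [y2] using (h1 L _ y1).2
    choose y hy using key
    exact ⟨lin y, fun _ s hs => by rw [lin_e]; exact hy s hs⟩
  choose nx hnx using step
  let q : ℕ → En (c.obj (Sq ι)) × En (c.obj (Sq ι)) :=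
    fun L => Nat.rec (0, 1) (fun L p => (p.2, nx L p)) L
  have hq : ∀ L, Inv L (q L).1 (q L).2 := fun L => by
    induction L with
    | zero =>
      refine fun s hs => ⟨⟨e_mem (Cell_zero (hG _ (Full_Ok hs)).1 (c.val_base 0) hs), ?_⟩, rfl⟩
      rintro ⟨i, hi, -⟩
      omega
    | succ L ih => exact hnx L (q L) ih
  exact ⟨fun L => (q L).2, rfl, fun L s hs => (hq L s hs).1, fun L s hs => (hq (L + 1) s hs).2⟩

lemma Full_zero {s : c.obj (Sq ι)} :
    s ∈ Full c 0 r ↔ s = c.map (fun _ => (0 : Sq ι)) (c.base (0 : Pt ι)) := by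
  refine ⟨fun h => (Cd.rel_graph (Cd.rel_mono (fun _ _ a ha _ => ?_) h.2.2)).symm, ?_⟩
  · exact funext fun t => ((h.2.1 a ha).1 t t.zero_le).symm
  · rintro rfl
    refine mem_Full.2 ⟨Cd.val_map _ (c.val_base 0), fun a ha => ?_⟩
    obtain ⟨-, -, rfl⟩ := Cd.lv_map ha
    exact ⟨⟨fun _ _ => rfl, fun _ _ _ h => absurd h (by omega)⟩, fun _ h => absurd h (by omega)⟩

variable [Fintype ι]

/-- Lefschetz: an augmented chain map that vanishes in a high degree has a diagonal entry. -/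
lemma lefschetz (ψ : ℕ → En (c.obj (Sq ι))) (N : ℕ)
    (h1 : ∀ L, ∀ x ∈ Sp (Full c L r), ψ L x ∈ Sp (Full c L r))
    (h2 : ∀ L, ∀ x ∈ Sp (Full c (L + 1) r), bd c (L + 1) (ψ (L + 1) x) = ψ L (bd c (L + 1) x))
    (h3 : ∀ s, ψ 0 (e s) = e s) (h4 : ∀ x ∈ Sp (Full c (N + 1) r), ψ (N + 1) x = 0) :
    ∃ L, ∃ s ∈ Full c (L + 1) r, ψ (L + 1) (e s) s ≠ 0 := by
  by_contra hcon
  push Not at hcon
  obtain ⟨h, hx⟩ : ∃ h : ℕ → En (c.obj (Sq ι)), ∀ L, ∀ x ∈ Sp (Full c L r),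
      h L x ∈ Sp (Full c (L + 1) r) ∧ bd c (L + 1) (h L x) + h (L - 1) (bd c L x) = x :=
    acycB (fun i => range (r i)) (∑ i, r i) (fun i => by
      rw [card_range]
      exact single_le_sum (fun _ _ => Nat.zero_le _) (mem_univ i)) (c.val_base 0)
  let K : ℕ → Finset (c.obj (Sq ι)) := fun L => (Full_finite c L r).toFinset
  have hK : ∀ L, (K L : Set (c.obj (Sq ι))) = Full c L r := fun L => by simp [K]
  have hK' : ∀ {L s}, s ∈ K L → s ∈ Full c L r := fun hc => (Full_finite _ _ _).mem_toFinset.1 hc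
  let u : ℕ → F := fun L => ∑ s ∈ K L, ψ L (h (L - 1) (bd c L (e s))) s
  have key : ∀ L, ∑ s ∈ K L, ψ L (e s) s = u (L + 1) + u L := fun L => by
    have t1 := tr_comm (K L) (K (L + 1)) (bd c (L + 1)) (ψ (L + 1) * h L)
      (fun s hc => by rw [hK]; exact bd_mem (e_mem (hK' hc)))
      fun s hc => by rw [hK]; exact h1 _ _ (hx L _ (e_mem (hK' hc))).1
    refine Eq.trans ?_ (congrArg (· + u L) t1)
    rw [← sum_add_distrib]
    refine sum_congr rfl fun s hc => ?_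
    rw [Module.End.mul_apply, h2 L _ (hx L _ (e_mem (hK' hc))).1, ← Finsupp.add_apply, ← map_add,
      (hx L _ (e_mem (hK' hc))).2]
  have k1 : ∀ L, u (L + 1) = 1 := fun L => by
    induction L with
    | zero =>
      have k0 : K 0 = {c.map (fun _ => (0 : Sq ι)) (c.base (0 : Pt ι))} := by
        ext s
        rw [mem_singleton, ← Full_zero (r := r)]
        exact (Full_finite _ _ _).mem_toFinset
      have k2 : u 0 = 0 := by simp [u, bd_zero]
      have := key 0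
      rw [k0, sum_singleton, h3, e, Finsupp.single_eq_same, k2, add_zero] at this
      exact this.symm
    | succ L ih =>
      have := key (L + 1)
      rw [sum_eq_zero fun c hc => hcon L c (hK' hc), ih] at this
      linear_combination -this - add_self (1 : F)
  have k3 : u (N + 1) = 0 := sum_eq_zero fun s hc => by
    rw [Nat.add_sub_cancel, h4 _ (hx N _ (bd_mem (e_mem (hK' hc)))).1, Finsupp.zero_apply]
  exact zero_ne_one (k3.symm.trans (k1 N))

def Mf (lam : ι → ℕ → ℕ) (m : ι → ℕ) (L : ℕ) (a : Sq ι) : Sq ι →₀ F :=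
  ∑ σ ∈ Fintype.piFinset fun i => range (2 * m i + 1), Finsupp.single (ap L (Ph lam σ) a) 1

lemma Mf_apply (lam : ι → ℕ → ℕ) (m : ι → ℕ) (L : ℕ) (a b : Sq ι) :
    Mf lam m L a b = Pr.co {b} (Mt lam m L a) := by
  rw [← co_emb, Mf, map_sum, Mt]
  simp only [emb_single]

def tau (c : Cd) (lam : ι → ℕ → ℕ) (m : ι → ℕ) (L : ℕ) : En (c.obj (Sq ι)) :=
  lin (dl (Mf lam m L) c)

lemma tau_zero (lam : ι → ℕ → ℕ) (s : c.obj (Sq ι)) : tau c lam m 0 (e s) = e s := by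
  rw [tau, lin_e]
  refine dl_unit (fun a => Finsupp.ext fun b => ?_) c s
  rw [Mf_apply, Mt_zero, ← emb_single, co_emb]

lemma bd_tau (lam : ι → ℕ → ℕ) (L : ℕ) :
    bd c (L + 1) * tau c lam m (L + 1) = tau c lam m L * bd c (L + 1) := by
  unfold bd
  rw [sum_mul, mul_sum]
  refine sum_congr rfl fun j hj => ext_e fun A => ?_
  have hj' := Nat.lt_succ_iff.1 (mem_range.1 hj)
  simp only [Module.End.mul_apply, tau, lin_e, D, Im_e]
  refine dl_nat (fun a => ?_) c A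
  rw [← Finsupp.lmapDomain_apply F F, Mf, map_sum, Mf]
  refine sum_congr rfl fun σ _ => ?_
  rw [Finsupp.lmapDomain_apply, Finsupp.mapDomain_single]
  exact congrArg (fun b => Finsupp.single b (1 : F)) (congrFun (fc_ap hj' _) a)

/-- the label sequences are paths from `0` to (nearly) `r` -/
def Pth (lam : ι → ℕ → ℕ) (m r : ι → ℕ) : Prop := ∀ i, lam i 0 = 0 ∧ r i ≤ lam i (m i) + 1 ∧
  ∀ j < m i, lam i (j + 1) ≤ lam i j + 1 ∧ lam i j ≤ lam i (j + 1) + 1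

theorem disc (lam : ι → ℕ → ℕ) (hp : Pth lam m r)
    (G : c.obj (Pt ι) → c.obj (Pt ι)) (hG : ∀ B, Ok c m B → Ok c r (G B))
    (hL : ∀ B B', Ok c m B → Ok c m B' → Cl c 1 B B' → Cl c 1 (G B) (G B')) :
    ∃ B, Ok c m B ∧ Cl c (c.wt * (2 * (c.wt * Fintype.card ι + 1)) + 1)
      (G B) (c.map (fun x i => lam i (x i)) B) := by
  obtain ⟨γ, g0, g1, g2⟩ := exists_gam G hG hL
  let T : ℕ → c.obj (Sq ι) → Set (c.obj (Sq ι)) := fun L A => {s | c.val s ∧ c.rel (Ov lam m L) A s}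
  have t1 : ∀ L, ∀ A ∈ Full c L r, tau c lam m L (e A) ∈ Sp (T L A) := fun L A hc => by
    rw [tau, lin_e]
    refine mem_Sp.2 fun s hs => (dl_supp _ hc.1 hs).imp_right
      (Cd.rel_mono fun a ha b _ h => ?_)
    rw [Mf_apply] at h
    obtain ⟨b', h1, h2⟩ := Pr.Sp_supp (Mt_mem (fun i => (hp i).1) (fun i => (hp i).2.1)
      (fun i => (hp i).2.2) ((mem_Full.1 hc).2 a ha).1 ((mem_Full.1 hc).2 a ha).2) h
    rwa [singleton_inj.1 h1]
  have t2 : ∀ L A, T L A ⊆ Full c L m := fun L A s hs => by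
    refine mem_Full.2 ⟨hs.1, fun b hb => ?_⟩
    obtain ⟨a, -, h⟩ := Cd.rel_lv hs.2 b hb
    exact ⟨h.1, h.2.1⟩
  have t3 : ∀ L, ∀ x ∈ Sp (Full c L r), tau c lam m L x ∈ Sp (Full c L m) := fun L x hx =>
    Sp_map _ _ (fun A hc => Sp_mono (t2 L A) (t1 L A hc)) hx
  obtain ⟨L, A, hc, hne⟩ := lefschetz (r := r) (fun L => γ L * tau c lam m L)
    (c.wt * Fintype.card ι + 1)
    (fun L x hx => Sp_map (γ L) _
      (fun s hs => Sp_mono (Car_Full (hG _ (Full_Ok hs))) (g1 L s hs).1) (t3 L x hx))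
    (fun L x hx => by
      have h1 := LinearMap.congr_fun (bd_tau (m := m) lam L) x
      simp only [Module.End.mul_apply] at h1 ⊢
      rw [← h1]
      exact Sp_eq (bd c (L + 1) * γ (L + 1)) (γ L * bd c (L + 1)) (g2 L) (t3 _ x hx))
    (fun s => by rw [g0, one_mul, tau_zero])
    fun x hx => Sp_eq (γ _) 0
      (fun s hs => (g1 _ s hs).2 (deg_of_big hs (Nat.lt_succ_self _))) (t3 _ x hx)
  obtain ⟨s, hs, hsc⟩ : ∃ s ∈ T (L + 1) A, γ (L + 1) (e s) A ≠ 0 := by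
    by_contra hcon
    push Not at hcon
    exact hne (Sp_eq (Finsupp.lapply A ∘ₗ γ (L + 1)) 0 hcon (t1 _ A hc))
  have hsK := t2 _ A hs
  have hLe : L + 1 ≤ c.wt * Fintype.card ι + 1 := by
    by_contra h
    exact hsc (by rw [(g1 _ s hsK).2 (deg_of_big hsK (by omega)), Finsupp.zero_apply])
  have c1 := Car_Cl (hG _ (Full_Ok hsK)) L.succ_pos (mem_Sp.1 (g1 _ s hsK).1 _ hsc)
  have c2 : c.wt * (2 * (L + 1)) ≤ c.wt * (2 * (c.wt * Fintype.card ι + 1)) :=
    Nat.mul_le_mul_left _ (by omega)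
  refine ⟨pts c s, Full_Ok hsK, Cd.rel_map_right.2 (Cd.rel_map_right.2 (Cd.rel_mono ?_
    (Cd.rel_comp (Cd.rel_map_right.1 c1) hs.2)))⟩
  rintro x - b - ⟨a, -, h1, h2⟩ i
  have := h1 i
  have := h2.2.2 L.succ_pos i
  beta_reduce
  omega

end Pool.Agent.Lib.MP_3eb21e_gt.It
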