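import Pool.Agent.Lib.MP_3eb21e_gt.It.Disc
import Pool.Agent.Lib.MP_3eb21e_gt.It.Defs

/-!
Every map of the class `Gen` has discrete models, so it is universal.
-/

noncomputable section

namespace Pool.Agent.Lib.MP_3eb21e_gt.It

open Set Topology Filter Uniformity UniformSpace
open Pool.Agent.Lib.MP_3eb21e_gt.Ch (HC half ofFun compact_sym HC_nhds nhds_HC compact_unif sep_HC
  path_of_conn)
open Pool.Agent.Lib.MP_3eb21e_gt.Pr (Pt pi_ent label)
open scoped Classical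

/-- `f` has discrete models up to `U` -/
def Mod {X Y : Type} [TopologicalSpace X] [TopologicalSpace Y] (f : X → Y) (U : Set (Y × Y)) :
    Prop :=
  ∃ (ι : Type) (_ : Fintype ι) (c : Cd), ∀ N, ∃ (r : ι → ℕ) (l : Y → c.obj (Pt ι)),
    ∃ L ∈ 𝓝ˢ (diagonal Y), (∀ y, Ok c r (l y)) ∧ (∀ p q, (p, q) ∈ L → Cl c 1 (l p) (l q)) ∧
      ∀ W ∈ 𝓝ˢ (diagonal X), ∃ (m : ι → ℕ) (lam : ι → ℕ → ℕ) (z : c.obj (Pt ι) → X),
        Pth lam m r ∧ (∀ B B', Ok c m B → Ok c m B' → Cl c 1 B B' → (z B, z B') ∈ W) ∧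
          ∀ B q, Ok c m B → Cl c N (l q) (c.map (fun x i => lam i (x i)) B) → (f (z B), q) ∈ U

lemma pre_diag {X Y : Type} [TopologicalSpace X] [TopologicalSpace Y] {h : X → Y}
    (hh : Continuous h) {W : Set (Y × Y)} (hW : W ∈ 𝓝ˢ (diagonal Y)) :
    Prod.map h h ⁻¹' W ∈ 𝓝ˢ (diagonal X) :=
  (hh.prodMap hh).tendsto_nhdsSet (fun _ hp => congrArg h hp) hW

lemma Mod.mono {X Y : Type} [TopologicalSpace X] [TopologicalSpace Y] {f : X → Y}
    {U U' : Set (Y × Y)} (h : Mod f U) (hU : U ⊆ U') : Mod f U' := by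
  obtain ⟨ι, _, c, h⟩ := h
  refine ⟨ι, inferInstance, c, fun N => ?_⟩
  obtain ⟨r, l, L, hL, h1, h2, h3⟩ := h N
  refine ⟨r, l, L, hL, h1, h2, fun W hW => ?_⟩
  obtain ⟨m, lam, z, h4, h5, h6⟩ := h3 W hW
  exact ⟨m, lam, z, h4, h5, fun B q a b => hU (h6 B q a b)⟩

lemma Mod.coin {X Y : Type} [TopologicalSpace X] [TopologicalSpace Y] {f : X → Y}
    {U : Set (Y × Y)} (h : Mod f U) {g : X → Y} (hg : Continuous g) : ∃ x, (f x, g x) ∈ U := by
  obtain ⟨ι, _, c, h⟩ := h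
  obtain ⟨r, l, L, hL, h1, h2, h3⟩ := h (c.wt * (2 * (c.wt * Fintype.card ι + 1)) + 1)
  obtain ⟨m, lam, z, h4, h5, h6⟩ := h3 _ (pre_diag hg hL)
  obtain ⟨B, hB, hc⟩ := disc lam h4 (fun B => l (g (z B))) (fun B _ => h1 _)
    fun B B' a b d => h2 _ _ (h5 B B' a b d)
  exact ⟨z B, h6 B _ hB hc⟩

lemma Ok_pt {ι : Type} {m : ι → ℕ} {v : Pt ι} : Ok .pt m v ↔ ∀ i, v i ≤ m i :=
  ⟨fun h => h.2 v (Finset.mem_singleton_self _),
    fun h => ⟨trivial, fun _ hx => Finset.mem_singleton.1 hx ▸ h⟩⟩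

lemma mod_arc {X Y : Type} [UniformSpace X] [CompactSpace X] [PreconnectedSpace X] [UniformSpace Y]
    [CompactSpace Y] (hY : Chainable Y) {f : X → Y} (hf : Continuous f)
    (hs : Function.Surjective f) {U : Set (Y × Y)} (hU : U ∈ 𝓝ˢ (diagonal Y)) : Mod f U := by
  refine ⟨Unit, inferInstance, .pt, fun N => ?_⟩
  rw [nhdsSet_diagonal_eq_uniformity] at hU
  obtain ⟨r, l, L, hL, l1, l4, l3, ⟨y0, hy0⟩, y1, hy1⟩ := label hY N hU
  refine ⟨fun _ => r, fun y _ => l y, L, by rwa [nhdsSet_diagonal_eq_uniformity],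
    fun y => Ok_pt.2 fun _ => l1 y, fun p q h _ => l4 p q h, fun W hW => ?_⟩
  rw [nhdsSet_diagonal_eq_uniformity] at hW
  obtain ⟨E', hE', -, sE, yE, -⟩ :=
    half (inter_mem hW (CompactSpace.uniformContinuous_of_continuous hf hL))
  obtain ⟨a, rfl⟩ := hs y0
  obtain ⟨b, rfl⟩ := hs y1
  obtain ⟨m, x, x0, xm, hx⟩ := path_of_conn hE' a b
  have hxx : ∀ u ≤ m, ∀ v ≤ m, u ≤ v + 1 ∧ v ≤ u + 1 → (x u, x v) ∈ W := fun u hu v hv h => by
    rcases lt_trichotomy u v with h' | rfl | h'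
    · obtain rfl : v = u + 1 := by omega
      exact (sE (hx u hv)).1
    · exact refl_mem_uniformity hW
    · obtain rfl : u = v + 1 := by omega
      exact (sE (yE _ _ (hx v hu))).1
  subst x0 xm
  exact ⟨fun _ => m, fun _ j => l (f (x j)), fun v => x (v ()),
    fun _ => ⟨hy0, hy1, fun j hj => (l4 _ _ (sE (hx j hj)).2).symm⟩,
    fun u v hu hv h => hxx _ (Ok_pt.1 hu ()) _ (Ok_pt.1 hv ()) (h ()),
    fun v q _ h => l3 _ _ (h ()).symm⟩

lemma mem_lv_pr {X : Type} {c d : Cd} {t : (Cd.pr c d).obj X} {x : X} :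
    x ∈ (Cd.pr c d).lv t ↔ x ∈ c.lv t.1 ∨ x ∈ d.lv t.2 := Finset.mem_union

lemma Ok_map {ι κ : Type} {c : Cd} {m' : κ → ℕ} {B : c.obj (Pt ι)} (hB : c.val B)
    {φ : Pt ι → Pt κ} (h : ∀ x ∈ c.lv B, ∀ i, φ x i ≤ m' i) : Ok c m' (c.map φ B) :=
  ⟨Cd.val_map _ hB, fun x hx => by
    obtain ⟨y, hy, rfl⟩ := Cd.lv_map hx
    exact h y hy⟩

lemma mod_pi {κ : Type} {X Y : κ → Type} [∀ i, UniformSpace (X i)] [∀ i, CompactSpace (X i)]
    [∀ i, Nonempty (X i)] [∀ i, UniformSpace (Y i)] [∀ i, CompactSpace (Y i)]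
    {f : ∀ i, X i → Y i} (h : ∀ i, ∀ U ∈ 𝓝ˢ (diagonal (Y i)), Mod (f i) U)
    {U : Set ((∀ i, Y i) × ∀ i, Y i)} (hU : U ∈ 𝓝ˢ (diagonal (∀ i, Y i))) :
    Mod (fun (x : ∀ i, X i) i => f i (x i)) U := by
  rw [nhdsSet_diagonal_eq_uniformity] at hU
  obtain ⟨J, V, hV, hVU⟩ := pi_ent hU
  refine Mod.mono (U := {p : (∀ i, Y i) × ∀ i, Y i | ∀ i ∈ J, (p.1 i, p.2 i) ∈ V i}) ?_ fun p hp => hVU _ _ hp
  clear hVU
  induction J using Finset.induction_on with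
  | empty =>
    refine ⟨Empty, inferInstance, .pt, fun N => ⟨0, fun _ => (0 : Pt Empty), univ, univ_mem,
      fun _ => Ok_pt.2 fun i => i.elim, fun _ _ _ i => i.elim, fun W hW => ⟨0, 0,
        fun _ => Classical.arbitrary _, fun i => i.elim, fun _ _ _ _ _ => ?_, by simp⟩⟩⟩
    exact subset_of_mem_nhdsSet hW rfl
  | insert k J hk ih =>
    obtain ⟨ι1, _, c1, h1⟩ := ih
    obtain ⟨ι2, _, c2, h2⟩ := h k (V k) (by rw [nhdsSet_diagonal_eq_uniformity]; exact hV k)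
    refine ⟨ι1 ⊕ ι2, inferInstance, .pr c1 c2, fun N => ?_⟩
    obtain ⟨r1, l1, L1, hL1, a1, b1, d1⟩ := h1 N
    obtain ⟨r2, l2, L2, hL2, a2, b2, d2⟩ := h2 N
    refine ⟨Sum.elim r1 r2, fun y => (c1.map (fun v : Pt ι1 => (Sum.elim v 0 : Pt (ι1 ⊕ ι2))) (l1 y),
      c2.map (fun v : Pt ι2 => (Sum.elim 0 v : Pt (ι1 ⊕ ι2))) (l2 (y k))), _,
      inter_mem hL1 (pre_diag (continuous_apply k) hL2), fun y => ?_, fun p q hpq => ⟨?_, ?_⟩,
      fun W hW => ?_⟩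
    · have e1 := Ok_map (m' := Sum.elim r1 r2) (φ := fun v => Sum.elim v 0) (a1 y).1
        fun x hx i => by
          rcases i with i | i
          exacts [(a1 y).2 x hx i, Nat.zero_le _]
      have e2 := Ok_map (m' := Sum.elim r1 r2) (φ := fun v => Sum.elim 0 v) (a2 (y k)).1
        fun x hx i => by
          rcases i with i | i
          exacts [Nat.zero_le _, (a2 (y k)).2 x hx i]
      exact ⟨⟨e1.1, e2.1⟩, fun x hx => (mem_lv_pr.1 hx).elim (e1.2 x) (e2.2 x)⟩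
    · refine Cd.rel_map.2 (Cd.rel_mono (fun x _ y _ h i => ?_) (b1 p q hpq.1))
      rcases i with i | i
      exacts [h i, ⟨Nat.zero_le _, Nat.zero_le _⟩]
    · refine Cd.rel_map.2 (Cd.rel_mono (fun x _ y _ h i => ?_) (b2 _ _ hpq.2))
      rcases i with i | i
      exacts [⟨Nat.zero_le _, Nat.zero_le _⟩, h i]
    rw [nhdsSet_diagonal_eq_uniformity] at hW
    obtain ⟨J', W', hW', hWW⟩ := pi_ent hW
    obtain ⟨m1, lam1, z1, p1, q1, s1⟩ := d1 {p : (∀ i, X i) × ∀ i, X i | ∀ i ∈ J', (p.1 i, p.2 i) ∈ W' i} (by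
      rw [nhdsSet_diagonal_eq_uniformity]
      exact (eventually_all_finset J').2 fun i _ => Pi.uniformContinuous_proj X i (hW' i))
    obtain ⟨m2, lam2, z2, p2, q2, s2⟩ := d2 (W' k)
      (by rw [nhdsSet_diagonal_eq_uniformity]; exact hW' k)
    have o1 : ∀ B, Ok (.pr c1 c2) (Sum.elim m1 m2) B → Ok c1 m1 (c1.map (· ∘ Sum.inl) B.1) :=
      fun B hB => Ok_map hB.1.1
        fun x hx i => hB.2 x (mem_lv_pr.2 (.inl hx)) (.inl i)
    have o2 : ∀ B, Ok (.pr c1 c2) (Sum.elim m1 m2) B → Ok c2 m2 (c2.map (· ∘ Sum.inr) B.2) :=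
      fun B hB => Ok_map hB.1.2
        fun x hx i => hB.2 x (mem_lv_pr.2 (.inr hx)) (.inr i)
    refine ⟨Sum.elim m1 m2, Sum.elim lam1 lam2, fun B => Function.update
      (z1 (c1.map (· ∘ Sum.inl) B.1)) k (z2 (c2.map (· ∘ Sum.inr) B.2)), fun i => ?_,
      fun B B' hB hB' hc => hWW _ _ fun i hi => ?_, fun B q hB hc i hi => ?_⟩
    · rcases i with i | i
      exacts [p1 i, p2 i]
    · by_cases hik : i = k
      · subst hik
        simp only [Function.update_self]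
        exact q2 _ _ (o2 B hB) (o2 B' hB')
          (Cd.rel_map.2 (Cd.rel_mono (fun _ _ _ _ h i => h (.inr i)) hc.2))
      · simp only [Function.update_of_ne hik]
        exact q1 _ _ (o1 B hB) (o1 B' hB')
          (Cd.rel_map.2 (Cd.rel_mono (fun _ _ _ _ h i => h (.inl i)) hc.1)) i hi
    · rcases Finset.mem_insert.1 hi with rfl | hi
      · simp only [Function.update_self]
        exact s2 _ _ (o2 B hB) (Cd.rel_map_right.2 (Cd.rel_map_right.2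
          (Cd.rel_mono (fun _ _ _ _ h i => h (.inr i)) (Cd.rel_map.1 hc.2))))
      · have hik : i ≠ k := fun e => hk (e ▸ hi)
        simp only [Function.update_of_ne hik]
        exact s1 _ _ (o1 B hB) (Cd.rel_map_right.2 (Cd.rel_map_right.2
          (Cd.rel_mono (fun _ _ _ _ h i => h (.inl i)) (Cd.rel_map.1 hc.1)))) i hi

lemma sym_ent {E : Type} [UniformSpace E] [CompactSpace E] {n : ℕ} (hn : 1 ≤ n)
    {U : Set (SymProd E n × SymProd E n)} (hU : U ∈ 𝓝ˢ (diagonal (SymProd E n))) :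
    ∃ V ∈ 𝓤 E, ∀ A A' : SymProd E n, HC V A.pts A'.pts → (A, A') ∈ U := by
  have := compact_sym (E := E) hn
  refine compact_unif (𝓤 E)
    (fun (A : SymProd E n) V => ∀ A' : SymProd E n, HC V A.pts A'.pts → (A, A') ∈ U)
    (fun A V V' h h1 A' h2 => h1 A' (h2.mono h)) fun A => ?_
  obtain ⟨O, hO, O', hO', h⟩ := mem_nhds_prod_iff.1 (mem_nhdsSet_iff_forall.1 hU (A, A) rfl)
  obtain ⟨V0, hV0, h0⟩ := nhds_HC A hO'
  obtain ⟨V, hV, -, -, -, t⟩ := half hV0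
  refine ⟨V, hV, ?_⟩
  filter_upwards [HC_nhds A hV, hO] with A' a1 a2 A'' a3
  exact h ⟨a2, h0 _ (a1.trans t a3)⟩

lemma ent_sym {E : Type} [UniformSpace E] {n : ℕ} {V : Set (E × E)} (hV : V ∈ 𝓤 E) :
    {p : SymProd E n × SymProd E n | HC V p.1.pts p.2.pts} ∈ 𝓝ˢ (diagonal (SymProd E n)) := by
  refine mem_nhdsSet_iff_forall.2 ?_
  rintro ⟨A, A'⟩ h
  obtain rfl : A = A' := h
  obtain ⟨V', hV', -, -, y, t⟩ := half hV
  exact mem_of_superset (prod_mem_nhds (HC_nhds A hV') (HC_nhds A hV'))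
    fun p hp => (HC.symm y hp.1).trans t hp.2

lemma t2_sym {E : Type} [UniformSpace E] [T0Space E] {n : ℕ} : T2Space (SymProd E n) := by
  refine t2Space_iff_nhds.2 fun A A' hne => ?_
  have h1 : ¬ ∀ U ∈ 𝓤 E, HC U A.pts A'.pts := fun h => hne (by
    have := sep_HC A.finite A'.finite h
    cases A
    cases A'
    simpa using this)
  push Not at h1
  obtain ⟨U, hU, h0⟩ := h1
  obtain ⟨V, hV, -, -, y, t⟩ := half hU
  exact ⟨_, HC_nhds A hV, _, HC_nhds A' hV,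
    disjoint_left.2 fun B h1 h2 => h0 (HC.trans t h1 (HC.symm y h2))⟩

lemma continuous_symMap {X Y : Type} [TopologicalSpace X] [TopologicalSpace Y] {f : X → Y}
    (hf : Continuous f) (n : ℕ) : Continuous (symMap f n) := by
  rw [continuous_generateFrom_iff]
  rintro _ ⟨u, hu, rfl⟩
  have : symMap f n ⁻¹' nbhd u = nbhd fun i => f ⁻¹' u i := by
    ext A
    simp only [nbhd, symMap, mem_preimage, mem_ofPred_eq, image_subset_iff, preimage_iUnion,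
      image_inter_nonempty_iff]
  rw [this]
  exact isOpen_nbhd fun i => (hu i).preimage hf

lemma Ok_sy {ι : Type} {c : Cd} {k : ℕ} {m : ι → ℕ} {B : Finset (c.obj (Pt ι))} :
    Ok (.sy k c) m B ↔ B.Nonempty ∧ B.card ≤ k + 1 ∧ ∀ a ∈ B, Ok c m a :=
  ⟨fun h => ⟨h.1.1, h.1.2.1, fun a ha => ⟨h.1.2.2 a ha,
      fun x hx => h.2 x (Finset.mem_biUnion.2 ⟨a, ha, hx⟩)⟩⟩,
    fun h => ⟨⟨h.1, h.2.1, fun a ha => (h.2.2 a ha).1⟩, fun x hx => by
      obtain ⟨a, ha, h1⟩ := Finset.mem_biUnion.1 hx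
      exact (h.2.2 a ha).2 x h1⟩⟩

lemma mod_sym {X Y : Type} [UniformSpace X] [CompactSpace X] [UniformSpace Y] [CompactSpace Y]
    {f : X → Y} (h : ∀ U ∈ 𝓝ˢ (diagonal Y), Mod f U) (k : ℕ)
    {U : Set (SymProd Y (k + 1) × SymProd Y (k + 1))}
    (hU : U ∈ 𝓝ˢ (diagonal (SymProd Y (k + 1)))) : Mod (symMap f (k + 1)) U := by
  have hn : 1 ≤ k + 1 := by omega
  obtain ⟨V, hV, hVU⟩ := sym_ent hn hU
  obtain ⟨ι, _, c, h⟩ := h V (by rwa [nhdsSet_diagonal_eq_uniformity])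
  refine ⟨ι, inferInstance, .sy k c, fun N => ?_⟩
  obtain ⟨r, l, L, hL, a, b, d⟩ := h N
  rw [nhdsSet_diagonal_eq_uniformity] at hL
  refine ⟨r, fun A => A.finite.toFinset.image l, _, ent_sym hL, fun A => Ok_sy.2
    ⟨by simpa using A.nonempty, Finset.card_image_le.trans
      ((ncard_eq_toFinset_card _ A.finite).symm.trans_le A.card_le), fun t ht => ?_⟩,
    fun A A' hA => ⟨fun t ht => ?_, fun t ht => ?_⟩, fun W hW => ?_⟩
  · obtain ⟨y, -, rfl⟩ := Finset.mem_image.1 ht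
    exact a y
  · obtain ⟨p, hp, rfl⟩ := Finset.mem_image.1 ht
    obtain ⟨q, hq, h1⟩ := hA.1 p (by simpa using hp)
    exact ⟨l q, Finset.mem_image_of_mem l (by simpa using hq), b _ _ h1⟩
  · obtain ⟨q, hq, rfl⟩ := Finset.mem_image.1 ht
    obtain ⟨p, hp, h1⟩ := hA.2 q (by simpa using hq)
    exact ⟨l p, Finset.mem_image_of_mem l (by simpa using hp), b _ _ h1⟩
  obtain ⟨W0, hW0, hWW⟩ := sym_ent hn hW
  obtain ⟨m, lam, z, p, q, s⟩ := d W0 (by rwa [nhdsSet_diagonal_eq_uniformity])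
  let mk : Finset (c.obj (Pt ι)) → SymProd X (k + 1) := fun B =>
    if h : B.Nonempty ∧ B.card ≤ k + 1 then
      ⟨z '' B, (Finset.coe_nonempty.2 h.1).image z, B.finite_toSet.image z,
        (ncard_image_le B.finite_toSet).trans (by simpa using h.2)⟩
    else ofFun hn fun _ => z (c.base 0)
  have hmk : ∀ B, Ok (.sy k c) m B → (mk B).pts = z '' (show Finset (c.obj (Pt ι)) from B) :=
    fun B h => by simp only [mk, dif_pos (And.intro h.1.1 h.1.2.1)]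
  refine ⟨m, lam, mk, p, fun B B' hB hB' hc => hWW _ _ ?_, fun B A hB hc => hVU _ _ ?_⟩
  · rw [hmk B hB, hmk B' hB']
    refine ⟨?_, ?_⟩
    · rintro _ ⟨i, hi, rfl⟩
      obtain ⟨j, hj, h1⟩ := hc.1 i hi
      exact ⟨_, mem_image_of_mem z hj,
        q i j ((Ok_sy.1 hB).2.2 i hi) ((Ok_sy.1 hB').2.2 j hj) h1⟩
    · rintro _ ⟨j, hj, rfl⟩
      obtain ⟨i, hi, h1⟩ := hc.2 j hj
      exact ⟨_, mem_image_of_mem z hi,
        q i j ((Ok_sy.1 hB).2.2 i hi) ((Ok_sy.1 hB').2.2 j hj) h1⟩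
  · show HC V (f '' (mk B).pts) A.pts
    rw [hmk B hB]
    refine ⟨?_, fun y hy => ?_⟩
    · rintro _ ⟨_, ⟨j, hj, rfl⟩, rfl⟩
      obtain ⟨_, h1, h2⟩ := hc.2 _ (Finset.mem_image_of_mem _ hj)
      obtain ⟨y, hy, rfl⟩ := Finset.mem_image.1 h1
      exact ⟨y, by simpa using hy, s j y ((Ok_sy.1 hB).2.2 j hj) h2⟩
    · obtain ⟨_, h1, h2⟩ := hc.1 _ (Finset.mem_image_of_mem l (A.finite.mem_toFinset.2 hy))
      obtain ⟨j, hj, rfl⟩ := Finset.mem_image.1 h1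
      exact ⟨_, mem_image_of_mem _ (mem_image_of_mem z hj), s j y ((Ok_sy.1 hB).2.2 j hj) h2⟩

lemma mod_retract {X Y X' Y' : Type} [TopologicalSpace X] [TopologicalSpace Y] [TopologicalSpace X']
    [TopologicalSpace Y'] {f : X → Y} {f' : X' → Y'} {p : X → X'} {j : Y' → Y} {q : Y → Y'}
    (hp : Continuous p) (hj : Continuous j) (hq : Continuous q) (h1 : q ∘ j = id)
    (h2 : f' ∘ p = q ∘ f) (h : ∀ U ∈ 𝓝ˢ (diagonal Y), Mod f U) {U : Set (Y' × Y')}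
    (hU : U ∈ 𝓝ˢ (diagonal Y')) : Mod f' U := by
  obtain ⟨ι, _, c, h⟩ := h _ (pre_diag hq hU)
  refine ⟨ι, inferInstance, c, fun N => ?_⟩
  obtain ⟨r, l, L, hL, a, b, d⟩ := h N
  refine ⟨r, fun y => l (j y), _, pre_diag hj hL, fun y => a _, fun _ _ h => b _ _ h,
    fun W hW => ?_⟩
  obtain ⟨m, lam, z, s1, s2, s3⟩ := d _ (pre_diag hp hW)
  refine ⟨m, lam, fun B => p (z B), s1, s2, fun B y hB hc => ?_⟩
  have h3 : (q (f (z B)), q (j y)) ∈ U := s3 B (j y) hB hc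
  rwa [show q (f (z B)) = f' (p (z B)) from (congrFun h2 _).symm,
    show q (j y) = y from congrFun h1 y] at h3

lemma mod_approx {X Y Z : Type} [TopologicalSpace X] [TopologicalSpace Y] [TopologicalSpace Z]
    {f : X → Y} {h : Y → Z} (hh : Continuous h) {U : Set (Z × Z)} (hm : Mod (h ∘ f) U) :
    Mod f (Prod.map h h ⁻¹' U) := by
  obtain ⟨ι, _, c, hm⟩ := hm
  refine ⟨ι, inferInstance, c, fun N => ?_⟩
  obtain ⟨r, l, L, hL, a, b, d⟩ := hm N
  refine ⟨r, fun y => l (h y), _, pre_diag hh hL, fun y => a _, fun _ _ h => b _ _ h,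
    fun W hW => ?_⟩
  obtain ⟨m, lam, z, s1, s2, s3⟩ := d W hW
  exact ⟨m, lam, z, s1, s2, fun B y hB hc => s3 B (h y) hB hc⟩

theorem gen_mod {X Y : Type} [tX : TopologicalSpace X] [tY : TopologicalSpace Y] {f : X → Y}
    (h : Gen X Y f) : (CompactSpace X ∧ T2Space X ∧ Nonempty X) ∧ (CompactSpace Y ∧ T2Space Y) ∧
      Continuous f ∧ ∀ U ∈ 𝓝ˢ (diagonal Y), Mod f U := by
  induction h with
  | arc X Y f hY hf hs =>
    let _ : UniformSpace X := uniformSpaceOfCompactR1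
    let _ : UniformSpace Y := uniformSpaceOfCompactR1
    exact ⟨⟨inferInstance, inferInstance, inferInstance⟩, ⟨inferInstance, inferInstance⟩, hf,
      fun U hU => mod_arc hY hf hs hU⟩
  | pi I X Y f _ ih =>
    have := fun i => (ih i).1.1
    have := fun i => (ih i).1.2.1
    have := fun i => (ih i).1.2.2
    have := fun i => (ih i).2.1.1
    have := fun i => (ih i).2.1.2
    let _ : ∀ i, UniformSpace (X i) := fun _ => uniformSpaceOfCompactR1
    let _ : ∀ i, UniformSpace (Y i) := fun _ => uniformSpaceOfCompactR1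
    exact ⟨⟨inferInstance, inferInstance, inferInstance⟩, ⟨inferInstance, inferInstance⟩,
      continuous_pi fun i => (ih i).2.2.1.comp (continuous_apply i),
      fun U hU => mod_pi (fun i => (ih i).2.2.2) hU⟩
  | sym X Y f n hn _ ih =>
    obtain ⟨⟨_, _, ⟨x⟩⟩, ⟨_, _⟩, hf, h⟩ := ih
    let _ : UniformSpace X := uniformSpaceOfCompactR1
    let _ : UniformSpace Y := uniformSpaceOfCompactR1
    obtain ⟨k, rfl⟩ : ∃ k, n = k + 1 := ⟨n - 1, by omega⟩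
    exact ⟨⟨compact_sym hn, t2_sym, ⟨ofFun hn fun _ => x⟩⟩, ⟨compact_sym hn, t2_sym⟩,
      continuous_symMap hf _, fun U hU => mod_sym h k hU⟩
  | factor X Y X' Y' f f' p q j hf' hp hq hj h3 h2 _ ih =>
    obtain ⟨⟨_, _, ⟨x⟩⟩, ⟨_, _⟩, hf, h⟩ := ih
    have l2 : Function.LeftInverse q j := congrFun h2
    exact ⟨⟨inferInstance, inferInstance, ⟨p x⟩⟩,
      ⟨l2.surjective.compactSpace hq, .of_injective_continuous l2.injective hj⟩, hf',
      fun U hU => mod_retract hp hj hq h2 h3 h hU⟩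
  | approx X Y I Z f h hf hh hs _ ih =>
    obtain ⟨i0, -⟩ := hs univ univ_mem
    refine ⟨(ih i0).1, ⟨inferInstance, inferInstance⟩, hf, fun U hU => ?_⟩
    obtain ⟨O, ho, h1, h2⟩ := mem_nhdsSet_iff_exists.1 hU
    obtain ⟨i, hi⟩ := hs O (ho.mem_nhdsSet.2 h1)
    have := (ih i).2.1.2
    refine (mod_approx (hh i) ((ih i).2.2.2 (Prod.map (h i) (h i) '' Oᶜ)ᶜ
      ((ho.isClosed_compl.isCompact.image
        ((hh i).prodMap (hh i))).isClosed.isOpen_compl.mem_nhdsSet.2 ?_))).mono fun p hp => h2 ?_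
    · rintro _ hd ⟨p, hp, rfl⟩
      exact hp (hi _ _ hd)
    · by_contra h3
      exact hp ⟨p, h3, rfl⟩

theorem universal {X Y : Type} [TopologicalSpace X] [TopologicalSpace Y] {f : X → Y}
    (h : Gen X Y f) {g : X → Y} (hg : Continuous g) : ∃ x, g x = f x := by
  obtain ⟨⟨_, -⟩, ⟨-, _⟩, hf, h⟩ := gen_mod h
  by_contra hcon
  obtain ⟨x, hx⟩ := (h (range fun x => (f x, g x))ᶜ
    ((isCompact_range (hf.prodMk hg)).isClosed.isOpen_compl.mem_nhdsSet.2 (by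
      rintro _ hp ⟨x, rfl⟩
      exact hcon ⟨x, Eq.symm hp⟩))).coin hg
  exact hx (mem_range_self x)

end Pool.Agent.Lib.MP_3eb21e_gt.It
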